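import Mathlib
import Pool.Agent.Run7.h460.JL.Form
import Pool.Agent.Run7.h460.JL.Cube

/-!
# The joint law of the `3`-parts of the Birch and Swinnerton-Dyer conjecture over `ℚ(√-3)` for a
# finite system of cubic twists

`K` is the field of third roots of unity, `E_δ : y² + δ y = x³` for `δ ∈ 𝓞 K` prime to `3` (a cubic
twist of `y² + y = x³`; it only depends on `δ` up to cubes). An element of `𝓞 K` is admissible if it is
cube-free and congruent to a third root of unity modulo `3`; every element prime to `3` is an admissible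
element times a cube. The class of an admissible element `x` is given by `x` modulo `3` and the norm of
`x` modulo `9`; there are nine classes.

Let `a = (a_1, …, a_m)` run through all the tuples of admissible elements of a given class, ordered by
the maximum of the norms, and let `δ_t(a) = c_t ∏ a_i ^ e_{t i}`, `t = 1, …, q`, be any monomials in the
`a_i`, with fixed admissible coefficients `c_t`, such that

* no `δ_t` is a function of the coefficients alone modulo cubes,
* for `t ≠ t'` neither `δ_t δ_{t'}` nor `δ_t δ_{t'}²` is identically a cube,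
* no `δ_t(a)` is `1` modulo `3` with a norm `1` modulo `9` (this only depends on the class of `a`).

Then the `q` statements `ThreePart (δ_t(a))` are independent, each with the probability
`p = ∏_{i ≥ 0} (1 - 3^{-(2 i + 1)}) = 0.6390…`: for every set `T` of indices exactly the proportion
`p^|T| (1 - p)^(q - |T|)` of the tuples of the class is such that `ThreePart (δ_t(a))` holds exactly for
the `t` in `T`.

`ThreePart δ` says for `E_δ`, with a globally minimal equation `E_D`, `δ = D x³`: `L(E_D / K, s)` has an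
entire continuation with `L(E_D / K, 1) ≠ 0`, `E_D(K)` is finite, `Ш(E_D / K)[3^∞] = 0` and the quotient
`ρ` of `L(E_D / K, 1)` by `Ω ∏ c_v / (√|Δ(K)| |E_D(K)_tors|²)` is a unit at all the valuations above
`3`: the conjecture up to the part of `ρ` prime to `3`. For ALL the tuples of the class and all `t`
(except for the tuples, of density zero, such that `δ_t(a)` is a unit times a cube) `ρ` is integral above
`3`, and it is a unit there exactly if `E_D(K)` is finite and `Ш(E_D / K)[3^∞] = 0`. So the `q` numbers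
`ρ` are independent with respect to the property of being a unit above `3`.

The starting files `MP_9ab903_nt/ThreePartCubicTwists`, `MP_e996df_nt/MajorityThreePart` treat one curve
`E_D`, `D` running through all the elements. For several curves at once (`q > 1`) the probability
`p^q` of the event that all the groups are trivial is due to helper707 (`Run7/h707/TD, TF`, same team,
results on the rank); new here: the law inside each single class modulo nine, all the patterns, and the
formula. Proof: `Run7/h460/JL`.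
-/

set_option autoImplicit false

namespace Pool.Agent.Results.MP_9ab903_nt.JointThreePart

open NumberField IsDedekindDomain WeierstrassCurve
open Pool.Agent.TH841.NF.D (Sha)
open Pool.Agent.Y696 (NonsingRed)
open scoped Classical

/-- The curve `E_D : y² + D y = x³`. -/
def curve {K : Type} [Field K] (D : K) : WeierstrassCurve K := ⟨0, 0, D, 0, 0⟩

variable {K : Type} [Field K] [NumberField K]

/-- `a` is cube-free and congruent to a third root of unity modulo `3`. -/
def Admissible (a : 𝓞 K) : Prop :=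
  (∀ x : 𝓞 K, x ^ 3 ∣ a → IsUnit x) ∧ ∃ ω : 𝓞 K, ω ^ 3 = 1 ∧ (3 : 𝓞 K) ∣ a - ω

/-- `x` and `y` are in the same class: congruent modulo `3`, norms congruent modulo `9`. -/
def SameClass (x y : 𝓞 K) : Prop :=
  (3 : 𝓞 K) ∣ x - y ∧ (9 : ℤ) ∣ Algebra.norm ℤ x - Algebra.norm ℤ y

/-- `x` is in the exceptional class: `1` modulo `3` with a norm that is `1` modulo `9`. -/
def IsOne (x : 𝓞 K) : Prop := (3 : 𝓞 K) ∣ x - 1 ∧ (9 : ℤ) ∣ Algebra.norm ℤ x - 1

/-- `x` is a unit times a cube. -/
def UnitTimesCube (x : 𝓞 K) : Prop := ∃ u y : 𝓞 K, IsUnit u ∧ x = u * y ^ 3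

/-- The monomials `δ_t(a) = c_t ∏ a_i ^ e_{t i}`. -/
noncomputable def delta {m q : ℕ} (c : Fin q → 𝓞 K) (e : Fin q → Fin m → ℕ) (a : Fin m → 𝓞 K)
    (t : Fin q) : 𝓞 K := c t * ∏ i, a i ^ e t i

/-- `δ_t δ_{t'}` or `δ_t δ_{t'}²` is identically a cube: the exponents of the `a_i` are divisible by
`3` and the coefficient is a cube. -/
def Related {m q : ℕ} (c : Fin q → 𝓞 K) (e : Fin q → Fin m → ℕ) (t t' : Fin q) : Prop :=
  ∃ f : ℕ, (f = 1 ∨ f = 2) ∧ (∀ i, 3 ∣ e t i + f * e t' i) ∧ ∃ x : 𝓞 K, c t * c t' ^ f = x ^ 3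

/-- The tuples of admissible elements in the class of `r`. -/
def InClass {m : ℕ} (r a : Fin m → 𝓞 K) : Prop := ∀ i, Admissible (a i) ∧ SameClass (a i) (r i)

/-- The number of the tuples with norms at most `X` and the property `P`. -/
noncomputable def number {m : ℕ} (X : ℕ) (P : (Fin m → 𝓞 K) → Prop) : ℝ :=
  ({a : Fin m → 𝓞 K | (∀ i, Algebra.norm ℤ (a i) ≤ X) ∧ P a}.ncard : ℝ)

/-- The equation `W` is minimal at every finite place `v`, the number `c v` is the index of the
group of the points of nonsingular reduction in `W(K_v)` (the Tamagawa number), and `c v = 1` for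
all but finitely many `v`. -/
def IsTamagawa (W : WeierstrassCurve K) (c : HeightOneSpectrum (𝓞 K) → ℕ) : Prop :=
  (∀ v : HeightOneSpectrum (𝓞 K),
    IsMinimal (v.adicCompletionIntegers K) (W.baseChange (v.adicCompletion K)) ∧
    ∃ H : AddSubgroup (W.baseChange (v.adicCompletion K)).toAffine.Point,
      (∀ P, P ∈ H ↔ NonsingRed Valued.v (W.baseChange (v.adicCompletion K)) P) ∧
      H.index = c v) ∧
  {v | c v ≠ 1}.Finite

/-- `E_D(K)` is finite and the `3`-primary part of `Ш(E_D / K)` is trivial. -/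
def FiniteAndTrivial (D : 𝓞 K) : Prop :=
  Finite (curve (D : K)).toAffine.Point ∧ ∀ (n : ℕ) (x : Sha (curve (D : K))), 3 ^ n • x = 0 → x = 0

/-- The order of the torsion subgroup of `E_D(K)`. -/
noncomputable def torsionOrder (D : 𝓞 K) : ℕ :=
  Nat.card (AddCommGroup.torsion (curve (D : K)).toAffine.Point)

/-- The torsion subgroup of `E_D(K)` is finite, of order divisible by `3` and not by `9`; `Lf` is an
entire function equal to `L(E_D / K, s)` for `Re s > 3 / 2`; for every embedding `σ` of `K` and every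
pair of periods `ω₁, ω₂` of a lattice `Λ` with `g₂ = 0`, `g₃ = - σ(D)²` (the period lattice of
`E_D`; `A = |Im (conj ω₁ ω₂)|` is the area of a period parallelogram, and `2 A` is the factor of
`Ω(E_D)` at the complex place; such a `Λ` exists)
`Lf 1 = ρ · 2 A · ∏ c_v / (√|Δ(K)| |E_D(K)_tors|²)`, where `ρ` is integral at every valuation `v` of
`ℂ` above `3`, and a unit if and only if `E_D(K)` is finite and `Ш(E_D / K)[3^∞] = 0`. -/
def Law (D : 𝓞 K) : Prop :=
  Finite (AddCommGroup.torsion (curve (D : K)).toAffine.Point) ∧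
  padicValNat 3 (torsionOrder D) = 1 ∧
  ∃ (Lf : ℂ → ℂ) (c : HeightOneSpectrum (𝓞 K) → ℕ),
    Differentiable ℂ Lf ∧
    (∀ s : ℂ, 3 / 2 < s.re →
      LSeriesSummable ((fun n : ℤ => (n : ℂ)) ∘ (curve (D : K)).LFunction) s ∧
        Lf s = (curve (D : K)).LSeries s) ∧
    (FiniteAndTrivial D → Lf 1 ≠ 0) ∧
    IsTamagawa (curve (D : K)) c ∧
    ∀ σ : K →+* ℂ, (∃ Λ : PeriodPair, Λ.g₂ = 0 ∧ Λ.g₃ = -(σ D) ^ 2) ∧
      ∀ Λ : PeriodPair, Λ.g₂ = 0 → Λ.g₃ = -(σ D) ^ 2 → ∃ ρ : ℂ,
        Lf 1 = ρ * (((2 * |((starRingEnd ℂ) Λ.ω₁ * Λ.ω₂).im| : ℝ) : ℂ) * ((∏ᶠ w, c w : ℕ) : ℂ) /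
          (((Real.sqrt |(discr K : ℝ)| : ℝ) : ℂ) * (torsionOrder D : ℂ) ^ 2)) ∧
        ∀ (Γ : Type) [LinearOrderedCommGroupWithZero Γ] (v : Valuation ℂ Γ), v 3 < 1 →
          v ρ ≤ 1 ∧ (v ρ = 1 ↔ FiniteAndTrivial D)

/-- `δ = D x³` with `D` admissible and not a unit, so that `E_D` is isomorphic to `E_δ`, and the law
holds for `E_D`. -/
def IsModel (δ D : 𝓞 K) : Prop :=
  (∃ x : 𝓞 K, x ≠ 0 ∧ δ = D * x ^ 3) ∧ Admissible D ∧ ¬ IsUnit D ∧ Law D

/-- The `3`-part of the conjecture for `E_δ`, with a quotient that is a unit above `3`. -/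
def ThreePart (δ : 𝓞 K) : Prop := ∃ D : 𝓞 K, IsModel δ D ∧ FiniteAndTrivial D

/-- **Main theorem.** -/
theorem result (K : Type) [Field K] [NumberField K] [IsCyclotomicExtension {3} ℚ K] :
    (0.639 : ℝ) < ∏' i : ℕ, (1 - (1 / 3 : ℝ) ^ (2 * i + 1)) ∧
    ∀ (m q : ℕ) (c : Fin q → 𝓞 K) (e : Fin q → Fin m → ℕ) (r : Fin m → 𝓞 K),
      (∀ t, Admissible (c t)) → (∀ t, ∃ i, ¬ 3 ∣ e t i) →
      (∀ t t', t ≠ t' → ¬ Related c e t t') →
      (∀ i, Admissible (r i)) → (∀ t, ¬ IsOne (delta c e r t)) →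
      (∃ (C : ℝ) (X₀ : ℕ), 0 < C ∧ ∀ X : ℕ, X₀ ≤ X → C * (X : ℝ) ^ m ≤ number X (InClass r)) ∧
      (∀ T : Finset (Fin q), Filter.Tendsto (fun X : ℕ =>
        number X (fun a => InClass r a ∧ ∀ t, (ThreePart (delta c e a t) ↔ t ∈ T)) /
          number X (InClass r)) Filter.atTop
        (nhds ((∏' i : ℕ, (1 - (1 / 3 : ℝ) ^ (2 * i + 1))) ^ T.card *
          (1 - ∏' i : ℕ, (1 - (1 / 3 : ℝ) ^ (2 * i + 1))) ^ (q - T.card)))) ∧
      Filter.Tendsto (fun X : ℕ =>
        number X (fun a => InClass r a ∧ ∃ t, UnitTimesCube (delta c e a t)) /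
          number X (InClass r)) Filter.atTop (nhds 0) ∧
      ∀ a, InClass r a → ∀ t, ¬ UnitTimesCube (delta c e a t) →
        (∃ D : 𝓞 K, IsModel (delta c e a t) D ∧
          (FiniteAndTrivial D ↔ FiniteAndTrivial (delta c e a t))) ∧
        (ThreePart (delta c e a t) ↔ FiniteAndTrivial (delta c e a t)) := by
  have hlow := (Pool.Agent.N883.FG.finalC K).2.2.2
  refine ⟨by linarith, fun m q c e r hc he hsep hr h1 => ?_⟩
  obtain ⟨⟨j, -⟩, -⟩ := Pool.Agent.Y455.CTK.jex K
  obtain ⟨a1, a2, a3, a4⟩ := Run7.h460.JL.finJ K c e hc he hsep r hr h1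
  have key : ∀ a, InClass r a → ∀ t, ¬ UnitTimesCube (delta c e a t) →
      (∃ D : 𝓞 K, IsModel (delta c e a t) D ∧
          (FiniteAndTrivial D ↔ FiniteAndTrivial (delta c e a t))) ∧
        (ThreePart (delta c e a t) ↔ FiniteAndTrivial (delta c e a t)) := by
    intro a ha t hU
    rcases a4 a ha t with h | ⟨D, x, hx, hD, hF, hL, hT⟩
    · exact absurd h hU
    · have hM : IsModel (delta c e a t) D := ⟨⟨x, hx, hD⟩, ⟨hF.2.1, hF.2.2⟩, hF.1, hL⟩
      refine ⟨⟨D, hM, hT.symm⟩, ?_, fun h => ⟨D, hM, hT.1 h⟩⟩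
      rintro ⟨D', ⟨⟨y, hy, hD'⟩, hA', -, -⟩, hf⟩
      have h2 : D' = D := Run7.h460.JL.famO_unique j hA' ⟨hF.2.1, hF.2.2⟩ hy hx (by
        rw [← hD']
        exact hD)
      rw [h2] at hf
      exact hT.2 hf
  exact ⟨a1, a2 (fun t a => ThreePart (delta c e a t)) (fun a ha t hU => (key a ha t hU).2), a3,
    key⟩

end Pool.Agent.Results.MP_9ab903_nt.JointThreePart
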