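import Pool.Agent.Run7.h245.SR.FinalK

/-!
# Large elementary 2-primary Tate-Shafarevich groups and finite groups of points over quadratic extensions, for a positive
proportion of all elliptic curves over every number field

Let `F` be ANY number field. All pairs `(a, b)` of integers of `F` with `4 a³ + 27 b² ≠ 0` are ordered by the height
`H(a, b) = max_v max (|a|_v³, |b|_v²)` over the infinite places, with normalized absolute values.

Theorem. For every `N` there is a `D₀` such that a positive proportion of all elliptic curves `E : y ^ 2 = x ^ 3 + a x + b` over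
`F` has the following property. There is a natural number `D ≤ D₀`, not a square in `F`, such that
* `E(F)` and `E ^ D(F)` are finite groups of odd order (`E ^ D` the quadratic twist) and `Ш(E / F)[2 ^ ∞] = 0`,
  `Ш(E ^ D / F)[2 ^ ∞] = 0`;
* for the quadratic extension `K = F(√D)` the group `E(K)` is finite of odd order, and the 2-primary part of `Ш(E / K)` is
  killed by two and has at least `2 ^ N` elements.

So the 2-primary part of `Ш(E / K)` is known for a positive proportion of all `E / F` in a case where it is NOT trivial, over an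
extension of bounded degree and discriminant, and where it is generated by classes which are invisible in the two
Tate-Shafarevich groups over `F` (which have trivial 2-primary parts). The theorems before (`MP_7cad78_nt`, `MP_78d38b_nt`,
`MP_775b3b_nt` and others, projects PP, PF) are about trivial 2-primary parts.

The proof. Project PF (helper783 and others): `f = x ^ 3 + a x + b` runs through a family prescribed at the small primes and at
a finite set `S` of rational primes `q` (`f` is `x` times an irreducible polynomial modulo one prime `𝔮` over `q` and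
irreducible modulo the others), with squarefree discriminant. Let `S = T₀ ∪ T₁ ∪ T₂`. By project SR (see
`MP_8cb858_nt.EveryTwoSelmerDimension`) most such `f` are pseudorandom at each level: a class of `F(θ)` (`f(θ) = 0`) with square
norm which is ramified only at the levels before `k` (at the primes of degree two over the `𝔮`) and trivial at the primes
of `T_k` is trivial. By the reciprocity law and linear algebra over the field with two elements there are `J₁ ⊆ T₁` and
`J₂ ⊆ T₀ ∪ T₂`, `T₀ ⊆ J₂`, such that the twists of `f` by the products `D₁`, `D₂` of `J₁`, `J₂` have trivial 2-Selmer groups over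
`F`. Let `E` be the twist by `D₁` and `D = D₁ D₂`. By Dirichlet's theorem on units of `F(θ)` there are at least `2 ^ N` classes
with square norm, ramified only at the primes of `J₁ ∪ J₂`, trivial at `2` and `∞`. Over `K` they are unramified at
all primes, and `E` has good reduction over `K` at the primes dividing `D`, so that (by 2-descent over finite fields
and Hensel's lemma) they belong to the 2-Selmer group of `E` over `K`; they remain different over `K`. If `c` is a class in
`Ш(E / K)[2 ^ ∞]` and `τ` the automorphism of `K / F`, then `c + τ c` is the restriction of the corestriction, which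
belongs to `Ш(E / F)[2 ^ ∞] = 0`, and `c - τ c` is zero because of `Ш(E ^ D / F)[2 ^ ∞] = 0`. So `2 c = 0`. Here
corestriction is treated with explicit cocycles, also at the places of `F` which do not split in `K`.

Pieces by helpers 13, 67, 68, 228, 277, 366, 382, 576, 697, 711, 713, 760, 796, 811, 824, 834, 862, 890 (directory `SR` of
each, or of `h245`); interface and assembly by helper245. `Pt`, `Sep`, `act`, `rs`, `IsCoc`, `LocTriv`, `Comp` are the group
of points, separable closures, the action of the Galois group, continuous cocycles and their restriction to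
completions of `Pool.Agent.TH115.GD`.
-/

set_option autoImplicit false
set_option linter.all false

namespace Pool.Agent.Results.MP_9ab903_nt.LargeShaOverQuadraticExtensions

open Filter NumberField IsDedekindDomain Pool.Agent.TH115.GD
open scoped Classical

section family

variable {F : Type} [Field F] [NumberField F]

/-- The height `H(a, b) = max_v max (|a|_v ^ 3, |b|_v ^ 2)` over the infinite places, with the normalized absolute values
`|x|_v = v x` at the real places and `|x|_v = (v x) ^ 2` at the complex ones. -/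
noncomputable def height (p : 𝓞 F × 𝓞 F) : ℝ :=
  ⨆ v : InfinitePlace F, max ((v (p.1 : F) ^ v.mult) ^ 3) ((v (p.2 : F) ^ v.mult) ^ 2)

variable (F)

/-- All pairs `(a, b)` with `4 a ^ 3 + 27 b ^ 2 ≠ 0` of height at most `X`. -/
def UpTo (X : ℝ) : Set (𝓞 F × 𝓞 F) := {p | 4 * p.1 ^ 3 + 27 * p.2 ^ 2 ≠ 0 ∧ height p ≤ X}

end family

section sha

variable (K : Type) [Field K] [NumberField K] (W : WeierstrassCurve K)

/-- The cocycle `f` of `Gal(Sep K / K)` is a coboundary over all completions of `K`: at every maximal ideal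
of the ring of integers and over `ℝ` for every real embedding (over `ℂ` there is no condition). -/
structure Locally (f : (Sep K ≃ₐ[K] Sep K) → Pt W (Sep K)) : Prop where
  finite : ∀ v : HeightOneSpectrum (𝓞 K), LocTriv W (Comp (𝓞 K) K v) (Sep (Comp (𝓞 K) K v)) f
  real : ∀ ρ : K →+* ℝ, letI := ρ.toAlgebra; LocTriv W ℝ (Sep ℝ) f

/-- The classes of 2-power order in the Tate-Shafarevich group are killed by `m`: if a continuous cocycle is a
coboundary over all completions and its class is killed by a power of two, then `m` times the cocycle is a coboundary. -/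
def ShaTwoKilledBy (m : ℕ) : Prop :=
  ∀ f : (Sep K ≃ₐ[K] Sep K) → Pt W (Sep K), IsCoc W f → Locally K W f →
    (∃ (n : ℕ) (Q : Pt W (Sep K)), ∀ σ, 2 ^ n • f σ = act W (rs K σ) Q - Q) →
    ∃ Q : Pt W (Sep K), ∀ σ, m • f σ = act W (rs K σ) Q - Q

/-- There are at least `n` different classes of order one or two in the Tate-Shafarevich group: `n` continuous
cocycles with values in the points of order two which are coboundaries over all completions, such that no
two of them differ by the coboundary of a point. -/
def ShaTwoAtLeast (n : ℕ) : Prop :=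
  ∃ φ : Fin n → (Sep K ≃ₐ[K] Sep K) → Pt W (Sep K),
    (∀ i, IsCoc W (φ i) ∧ (∀ σ, (2 : ℕ) • φ i σ = 0) ∧ Locally K W (φ i)) ∧
    ∀ i j, i ≠ j → ¬ ∃ Q : Pt W (Sep K), ∀ σ, φ i σ - φ j σ = act W (rs K σ) Q - Q

end sha

section good

/-- The curve `y ^ 2 = x ^ 3 + a x + b`. -/
def curve {K : Type} [Field K] (a b : K) : WeierstrassCurve K := ⟨0, 0, 0, a, b⟩

/-- The group of points over `K` is finite of odd order. -/
def FinOdd (K : Type) [Field K] (W : WeierstrassCurve K) : Prop :=
  Finite W.toAffine.Point ∧ Odd (Nat.card W.toAffine.Point)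

variable {F : Type} [Field F] [NumberField F]

/-- The property of the curve `E` over `F` in the theorem. -/
structure Good (N D₀ : ℕ) (p : 𝓞 F × 𝓞 F) : Prop where
  /-- the pair is minimal -/
  minimal : ∀ 𝔭 : Ideal (𝓞 F), 𝔭.IsPrime → 𝔭 ≠ ⊥ → ¬ (p.1 ∈ 𝔭 ^ 4 ∧ p.2 ∈ 𝔭 ^ 6)
  /-- `E(F)` is finite of odd order and the 2-primary part of `Ш(E / F)` is zero -/
  base : FinOdd F (curve (p.1 : F) (p.2 : F)) ∧ ShaTwoKilledBy F (curve (p.1 : F) (p.2 : F)) 1
  /-- the quadratic extension -/
  ext : ∃ D : ℕ, D ≤ D₀ ∧ ¬ IsSquare (D : F) ∧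
    (FinOdd F (curve ((p.1 : F) * (D : F) ^ 2) ((p.2 : F) * (D : F) ^ 3)) ∧
      ShaTwoKilledBy F (curve ((p.1 : F) * (D : F) ^ 2) ((p.2 : F) * (D : F) ^ 3)) 1) ∧
    ∀ (K : Type) [Field K] [NumberField K] [Algebra F K],
      Module.finrank F K = 2 → IsSquare (D : K) →
      FinOdd K (curve (algebraMap F K (p.1 : F)) (algebraMap F K (p.2 : F))) ∧
      ShaTwoKilledBy K (curve (algebraMap F K (p.1 : F)) (algebraMap F K (p.2 : F))) 2 ∧
      ShaTwoAtLeast K (curve (algebraMap F K (p.1 : F)) (algebraMap F K (p.2 : F))) (2 ^ N)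

end good

theorem height_le {F : Type} [Field F] [NumberField F] (p : 𝓞 F × 𝓞 F) (X : ℝ) :
    height p ≤ X ↔ Pool.Agent.Run7.h245.SR.HnX X p := by
  have hb : BddAbove (Set.range fun v : InfinitePlace F =>
      max ((v (p.1 : F) ^ v.mult) ^ 3) ((v (p.2 : F) ^ v.mult) ^ 2)) :=
    (Set.finite_range _).bddAbove
  constructor
  · intro h v
    exact max_le_iff.1 ((le_ciSup hb v).trans h)
  · intro h
    exact ciSup_le fun v => max_le_iff.2 (h v)

theorem one_of {K : Type} [Field K] [NumberField K] {W : WeierstrassCurve K}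
    (h : Pool.Agent.N874.QM.ShaC W) : ShaTwoKilledBy K W 1 := by
  intro f hf hl hn
  obtain ⟨Q, hQ⟩ := h f hf ⟨hl.finite, hl.real⟩ hn
  exact ⟨Q, fun σ => by rw [one_smul]; exact hQ σ⟩

/-- For every number field `F` and every `N` there are `D₀` and `c > 0` such that, for all large `X`, at least
`c |UpTo X|` of the curves of height at most `X` are `Good N D₀`. -/
theorem result (F : Type) [Field F] [NumberField F] (N : ℕ) :
    ∃ (D₀ : ℕ) (c : ℝ), 0 < c ∧ ∀ᶠ X : ℝ in atTop,
      (UpTo F X).Finite ∧ 0 < (UpTo F X).ncard ∧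
      c * ((UpTo F X).ncard : ℝ) ≤ ({p ∈ UpTo F X | Good N D₀ p}.ncard : ℝ) := by
  obtain ⟨D₀, c, hc, X₀, h⟩ := Pool.Agent.Run7.h245.SR.findK F N
  refine ⟨D₀, c, hc, ?_⟩
  filter_upwards [eventually_ge_atTop X₀] with X hX
  have e1 : UpTo F X = {p : 𝓞 F × 𝓞 F | 4 * p.1 ^ 3 + 27 * p.2 ^ 2 ≠ 0 ∧
      Pool.Agent.Run7.h245.SR.HnX X p} := by
    ext p
    exact and_congr_right fun _ => height_le p X
  obtain ⟨h1, h2⟩ := h X
  obtain ⟨h3, h4⟩ := h2 hX
  have hsub : {p : 𝓞 F × 𝓞 F | (4 * p.1 ^ 3 + 27 * p.2 ^ 2 ≠ 0 ∧
      Pool.Agent.Run7.h245.SR.HnX X p) ∧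
      Pool.Agent.Run7.h245.SR.QG (Pool.Agent.Run7.h245.SR.ArF N D₀) p} ⊆
      {p ∈ UpTo F X | Good N D₀ p} := by
    rintro p ⟨hp, g1, -, ⟨a1, a2, a3⟩, D, hD, hns, ⟨b1, b2, b3⟩, hK⟩
    refine ⟨by rw [e1]; exact hp, g1, ⟨⟨a1, a2⟩, one_of a3⟩, D, hD, hns, ⟨⟨b1, b2⟩, one_of b3⟩, ?_⟩
    intro K _ _ _ hrk hsq
    obtain ⟨δ, hδ⟩ := hsq
    obtain ⟨c1, c2, c3, φ, c4, c5⟩ := hK K δ hrk (by rw [hδ, pow_two])
    refine ⟨⟨c1, c2⟩, fun f hf hl hn => c3 f hf ⟨hl.finite, hl.real⟩ hn, φ, fun i => ?_, c5⟩
    exact ⟨(c4 i).coc, (c4 i).two, (c4 i).finite, (c4 i).real⟩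
  rw [← e1] at h1 h3 h4
  refine ⟨h1, h3, h4.trans ?_⟩
  have h5 := Set.ncard_le_ncard hsub (h1.subset fun p hp => hp.1)
  exact_mod_cast h5

end Pool.Agent.Results.MP_9ab903_nt.LargeShaOverQuadraticExtensions
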