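import Pool.Agent.Run7.h691.QM.Pt
import Pool.Agent.Run7.h26.QJ.Va
import Pool.Agent.Run7.h26.QI.Ct10
import Pool.Agent.Run7.h26.QJ.Tp
import Pool.Agent.Run7.h26.QJ.Ta
import Pool.Agent.Run7.h763.QJ.IXE
import Pool.Agent.Run7.h795.QJ.IX4
import Pool.Agent.Run7.h795.QJ.IXI
import Pool.Agent.Run7.h843.QJ.PAR2
import Pool.Agent.Run7.h843.QJ.CvM
import Pool.Agent.Run7.h843.QJ.Ex

/-!
# The 2-parts of the strong conjecture of Birch and Swinnerton-Dyer for the quadratic twists of
# `y² = x³ - x` over `ℚ(i)` are independent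

`K = ℚ(i)` (a number field with an isomorphism `e` of the ring `ℤ[i]` with its ring of integers),
`E_g : y² = x³ - g² x` the quadratic twist of `y² = x³ - x` by the Gaussian integer `g`. Fix any nonzero Gaussian integers
`a_1, …, a_m` that are pairwise different modulo squares. For which of the `m` curves `E_{g a_i}` is the rank zero, `Ш[2^∞] = 0`
and the 2-part of the strong conjecture true, if `g` varies?

Every nonzero Gaussian integer is, up to a square, uniquely `c D` with `c = 1, i, 1 + i` or `i (1 + i)` and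
`D ≡ 1 mod 2 + 2i` squarefree (the normal form). The class consists of the squarefree `g` such that no `g a_i` has a
normal form with `c = 1`. It is a union of the sets `± c D`, all squarefree `D ≡ 1 mod 2 + 2i`, without any
congruence condition: all three classes `c ≠ 1` if the `a_i` are `≡ 1 mod 2 + 2i` and squarefree, at least two
of them if `m = 2` and one `a_i` is `1`.

* For ALL `g` of the class and all `i`, if `c D` is the normal form of `g a_i`, then `E_{c D}` is isomorphic to `E_{g a_i}`,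
  `L(E_{c D} / K, s)` is entire and `z = L(E_{c D} / K, 1) √|disc K| 4² / (Ω ∏ c_v)` is integral at all valuations above
  `2`; it is a unit there IF AND ONLY IF `E_{c D}(K)` is finite and `Ш(E_{c D} / K)` has no element of order two; and this holds if and
  only if an explicit criterion on the quadratic symbols between the prime factors of `c` and `D` does. In this case the
  2-part of the strong conjecture holds: exactly `4` points, `Ш[2^∞] = 0`, `L(1) ≠ 0`, and `z` is a unit.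
* For every subset `V` of `{1, …, m}` exactly the proportion `κ^#V (1 - κ)^(m - #V)`, `κ = ∏_{j ≥ 0} (1 - 2^{-(2j+1)}) = 0.4194...`, of the
  class has this property for the `E_{g a_i}` with `i ∈ V` and not for the other ones: the `m` events are independent. The
  class has the density `δ` among all squarefree `g`, `δ = 2/3` if the `a_i` are `≡ 1 mod 2 + 2i` and squarefree,
  `δ ≥ 1 - m/3` always, `δ ≥ 1/6` if it is not empty.

If the `a_i` are the `2^r` products `b^J` of independent `b_1, …, b_r`, then the `E_{g a_i}` are the factors of the Weil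
restriction of `E_g` from `K(√b_1, …, √b_r)` to `K` up to isogeny: it is true for all of them for exactly `κ^(2^r)` of the class.

The first direction for one twist is `MP_e996df_nt.GaussianTwistsTwoPart`, the work of helper26 with helper160,
helper763, helper795 and helper843 (`Pool/Agent/Run7/h26/QJ`), on top of work of helper699; the converse
(`Run7/h843/QJ`: the criterion is necessary for a finite `E(K)` and `Ш[2] = 0`) is the work of helper843 with the local and global
tools of `Run7/h*/XK`. New here is the joint law (`Pool/Agent/Run7/h691/QM`): the large sieve for the quadratic symbols of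
`ℤ[i]`, the masks of the fixed primes and of `i`, `1 + i`, the number of the pairs of solutions as averages
over linear spaces of symmetric matrices, and the law of all the patterns.
-/

set_option autoImplicit false

open scoped Classical

namespace Pool.Agent.Results.MP_9ab903_nt.TwoPartIndependence

open NumberField IsDedekindDomain

/-- `W v` is, for every finite place `v`, an integral model of `E` with discriminant minimal at
`v`. -/
def MinimalModels {K : Type} [Field K] [NumberField K] (E : WeierstrassCurve K)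
    (W : HeightOneSpectrum (𝓞 K) → WeierstrassCurve (𝓞 K)) : Prop :=
  ∀ v : HeightOneSpectrum (𝓞 K),
    (∃ C : WeierstrassCurve.VariableChange K, C • (W v).map (algebraMap (𝓞 K) K) = E) ∧
    ∀ W' : WeierstrassCurve (𝓞 K),
      (∃ C : WeierstrassCurve.VariableChange K, C • W'.map (algebraMap (𝓞 K) K) = E) →
      ∀ n : ℕ, (W v).Δ ∈ v.asIdeal ^ n → W'.Δ ∈ v.asIdeal ^ n

/-- The Euler factor at `v`, `(1 - a_v Nv^{-s} + Nv^{1-2s})⁻¹` if the reduction at `v` is good and
`(1 - a_v Nv^{-s})⁻¹` if it is bad, where `a_v` is `Nv` minus the number of affine points of the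
reduction of `W v`. -/
noncomputable def localFactor {K : Type} [Field K] [NumberField K]
    (W : HeightOneSpectrum (𝓞 K) → WeierstrassCurve (𝓞 K)) (v : HeightOneSpectrum (𝓞 K))
    (s : ℂ) : ℂ :=
  (1 - ((Ideal.absNorm v.asIdeal : ℂ)
        - (Nat.card {xy : (𝓞 K ⧸ v.asIdeal) × (𝓞 K ⧸ v.asIdeal) //
            ((W v).map (Ideal.Quotient.mk v.asIdeal)).toAffine.Equation xy.1 xy.2} : ℂ))
        * (Ideal.absNorm v.asIdeal : ℂ) ^ (-s)
    + (if (W v).Δ ∈ v.asIdeal then 0 else (Ideal.absNorm v.asIdeal : ℂ))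
        * (Ideal.absNorm v.asIdeal : ℂ) ^ (-2 * s))⁻¹

/-- `L` is the entire continuation of the `L`-function of `E`, the product of the Euler factors of the
minimal models for `Re s > 3/2`; `E` has minimal models. -/
def IsLFunction {K : Type} [Field K] [NumberField K] (E : WeierstrassCurve K) (L : ℂ → ℂ) : Prop :=
  Differentiable ℂ L ∧ (∃ W : HeightOneSpectrum (𝓞 K) → WeierstrassCurve (𝓞 K), MinimalModels E W) ∧
    ∀ W : HeightOneSpectrum (𝓞 K) → WeierstrassCurve (𝓞 K), MinimalModels E W →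
      ∀ s : ℂ, 3 / 2 < s.re → HasProd (fun v => localFactor W v s) (L s)

/-- The equation `E` is integral and its discriminant is minimal at all finite places (`W` is the equation
over the ring of integers), and `c v` is the Tamagawa number of `E` at `v`: the index in
`E(K_v)` of the subgroup of the points of nonsingular reduction. -/
def IsTamagawa {K : Type} [Field K] [NumberField K] (E : WeierstrassCurve K)
    (c : HeightOneSpectrum (𝓞 K) → ℕ) : Prop :=
  (∃ W : WeierstrassCurve (𝓞 K), W.map (algebraMap (𝓞 K) K) = E ∧ MinimalModels E (fun _ => W)) ∧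
  (∀ v : HeightOneSpectrum (𝓞 K),
    ∃ H : AddSubgroup (E.baseChange (v.adicCompletion K)).toAffine.Point,
      (∀ P, P ∈ H ↔ Pool.Agent.Y696.NonsingRed Valued.v (E.baseChange (v.adicCompletion K)) P) ∧
      H.index = c v) ∧
  {v | c v ≠ 1}.Finite

/-- `Λ` is the lattice of periods of the differential `dx / (2y + a₁x + a₃)` of the curve `E`, embedded
in the complex numbers by `σ`. -/
def IsPeriodLattice {K : Type} [Field K] (E : WeierstrassCurve K) (σ : K →+* ℂ)
    (Λ : PeriodPair) : Prop :=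
  Λ.g₂ = σ E.c₄ / 12 ∧ Λ.g₃ = σ E.c₆ / 216

/-- Twice the area of a fundamental parallelogram of the lattice. -/
noncomputable def period (Λ : PeriodPair) : ℝ := 2 * |((starRingEnd ℂ) Λ.ω₁ * Λ.ω₂).im|

/-- The quotient `L(E, 1) √|disc K| t² / (Ω ∏ c_v)`. -/
noncomputable def quotient (K : Type) [Field K] [NumberField K] (L : ℂ → ℂ) (t : ℕ) (Λ : PeriodPair)
    (c : HeightOneSpectrum (𝓞 K) → ℕ) : ℂ :=
  L 1 * (Real.sqrt |(discr K : ℝ)| : ℝ) * (t : ℂ) ^ 2 / ((period Λ : ℂ) * ((∏ᶠ v, c v : ℕ) : ℂ))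

/-- The valuation part with `t` in the place of the order of `E(K)`: the quotient is
integral at all valuations `w` of the field of complex numbers with `w 2 < 1`, and it is a unit there exactly if
`G` holds. -/
def ValuePart {K : Type} [Field K] [NumberField K] (E : WeierstrassCurve K) (t : ℕ) (G : Prop) : Prop :=
  ∃ (L : ℂ → ℂ) (c : HeightOneSpectrum (𝓞 K) → ℕ), IsLFunction E L ∧ IsTamagawa E c ∧
    ∀ σ : K →+* ℂ, (∃ Λ : PeriodPair, IsPeriodLattice E σ Λ) ∧
      ∀ Λ : PeriodPair, IsPeriodLattice E σ Λ →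
        ∀ (Γ : Type) [LinearOrderedCommGroupWithZero Γ] (w : Valuation ℂ Γ), w 2 < 1 →
          w (quotient K L t Λ c) ≤ 1 ∧ (w (quotient K L t Λ c) = 1 ↔ G)

/-- The 2-part of the strong conjecture, rank zero: `E(K)` is finite (so of rank zero),
`Ш(E/K)[2^∞] = 0`, `L(E/K, s)` is entire with `L(E/K, 1) ≠ 0`, and
`L(E/K, 1) √|disc K| #E(K)² / (Ω ∏ c_v)` is a unit at every valuation `w` of the field of complex
numbers with `w 2 < 1`. -/
def TwoPart {K : Type} [Field K] [NumberField K] (E : WeierstrassCurve K) : Prop :=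
  Finite E.toAffine.Point ∧
  (∀ (n : ℕ) (x : Pool.Agent.TH841.NF.D.Sha E), 2 ^ n • x = 0 → x = 0) ∧
  ∃ (L : ℂ → ℂ) (c : HeightOneSpectrum (𝓞 K) → ℕ), IsLFunction E L ∧ L 1 ≠ 0 ∧ IsTamagawa E c ∧
    ∀ σ : K →+* ℂ, (∃ Λ : PeriodPair, IsPeriodLattice E σ Λ) ∧
      ∀ Λ : PeriodPair, IsPeriodLattice E σ Λ →
        ∀ (Γ : Type) [LinearOrderedCommGroupWithZero Γ] (w : Valuation ℂ Γ), w 2 < 1 →
          w (quotient K L (Nat.card E.toAffine.Point) Λ c) = 1

/-- The curve `y² = x³ - g² x`. -/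
noncomputable def twist {K : Type} [Field K] [NumberField K] (e : GaussianInt ≃+* 𝓞 K)
    (g : GaussianInt) : WeierstrassCurve K :=
  ⟨0, 0, 0, -(algebraMap (𝓞 K) K (e g)) ^ 2, 0⟩

/-- `D ≡ 1 mod 2 + 2i`. -/
def Primary (D : GaussianInt) : Prop := (⟨2, 2⟩ : GaussianInt) ∣ D - 1

/-- `a` is a square modulo each prime factor of `d`. -/
def SquareMod (d a : GaussianInt) : Prop :=
  ∀ π : GaussianInt, Prime π → π ∣ d → ∃ b, π ∣ a - b ^ 2

/-- The criterion for `g = c D`: the only factorisation `D = d d'` with `d`, `d'` primary, `c d'` a square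
modulo each prime factor of `d` and `d` a square modulo each prime factor of `d'` is the one with
`d = 1`. -/
def Criterion (c D : GaussianInt) : Prop :=
  ∀ d d' : GaussianInt, Primary d → Primary d' → D = d * d' →
    SquareMod d (c * d') → SquareMod d' d → d = 1

/-- `c` is `1`, `i`, `1 + i` or `i (1 + i)`. -/
def IsTwistor (c : GaussianInt) : Prop := c = 1 ∨ c = ⟨0, 1⟩ ∨ c = ⟨1, 1⟩ ∨ c = ⟨0, 1⟩ * ⟨1, 1⟩

/-- `c D` is the normal form of `x` modulo squares. -/
def NormalForm (x c D : GaussianInt) : Prop :=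
  IsTwistor c ∧ Primary D ∧ Squarefree D ∧ IsSquare (x * (c * D))

/-- The `a i` are nonzero and pairwise different modulo squares. -/
def Distinct {m : ℕ} (a : Fin m → GaussianInt) : Prop :=
  (∀ i, a i ≠ 0) ∧ ∀ i j, i ≠ j → ¬ IsSquare (a i * a j)

/-- The class: `g` is squarefree and no `g a_i` has a normal form with first component `1`. -/
def InClass {m : ℕ} (a : Fin m → GaussianInt) (g : GaussianInt) : Prop :=
  Squarefree g ∧ ∀ (i : Fin m) (D : GaussianInt), ¬ NormalForm (g * a i) 1 D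

/-- `E(K)` is finite and `Ш(E/K)` has no element of order two. -/
def RankShaZero {K : Type} [Field K] [NumberField K] (E : WeierstrassCurve K) : Prop :=
  Finite E.toAffine.Point ∧ ∀ x : Pool.Agent.TH841.NF.D.Sha E, 2 • x = 0 → x = 0

/-- For `K = ℚ(i)` (every number field `K` with an isomorphism `e` of `ℤ[i]` with its ring of integers) and the
normal form `c D` of `x`: `y² = x³ - (c D)² x` has exactly four points over `K` and satisfies `TwoPart`. -/
def Holds (x : GaussianInt) : Prop :=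
  ∀ (K : Type) [Field K] [NumberField K] (e : GaussianInt ≃+* 𝓞 K) (c D : GaussianInt),
    NormalForm x c D → Nat.card (twist e (c * D)).toAffine.Point = 4 ∧ TwoPart (twist e (c * D))

/-- The number of the Gaussian integers of norm at most `X` with the property `P`. -/
noncomputable def num (P : GaussianInt → Prop) (X : ℕ) : ℕ := {D : GaussianInt | D.norm ≤ X ∧ P D}.ncard

/-- The infinite product `(1 - 1/2) (1 - 1/8) (1 - 1/32) ⋯`. -/
noncomputable def κ : ℝ := ∏' i : ℕ, (1 - (1 / 2 : ℝ) ^ (2 * i + 1))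

theorem norm_iff (D : GaussianInt) (X : ℕ) : D.norm ≤ X ↔ H385.nrm D ≤ X := by
  have h0 : ((H385.nrm D : ℕ) : ℤ) = D.norm := GaussianInt.abs_natCast_norm D
  omega

theorem num_eq (P : GaussianInt → Prop) (X : ℕ) : num P X = Run7.h26.QI.nQ P X := by
  unfold num Run7.h26.QI.nQ
  congr 1
  ext D
  exact and_congr_left fun _ => norm_iff D X

theorem num_congr {P Q : GaussianInt → Prop} (h : ∀ g, P g ↔ Q g) (X : ℕ) : num P X = num Q X := by
  unfold num
  congr 1
  ext g
  exact and_congr_right fun _ => h g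

theorem num_mono {P Q : GaussianInt → Prop} (h : ∀ g, P g → Q g) (X : ℕ) : num P X ≤ num Q X := by
  rw [num_eq, num_eq]
  exact Set.ncard_le_ncard (fun g hg => ⟨hg.1, h g hg.2⟩) (Run7.h26.QI.fin_Q Q X)

theorem primary_iff (D : GaussianInt) : Primary D ↔ Pool.Agent.H304R2.EC.A1.prim D :=
  (Pool.Agent.W164.RC.prim_iff_dvd D).symm

theorem sp_iff (D : GaussianInt) : (Primary D ∧ Squarefree D) ↔ Pool.Agent.Y699.PS D :=
  ⟨fun h => ⟨(primary_iff D).1 h.1, h.2⟩, fun h => ⟨(primary_iff D).2 h.prm, h.sqf⟩⟩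

theorem square_iff {d a : GaussianInt} (hd0 : d ≠ 0) (ho : d.norm % 2 = 1)
    (hnd : ∀ π : GaussianInt, Prime π → π ∣ d → ¬ π ∣ a) :
    SquareMod d a ↔ ∀ π ∈ Pool.Agent.Y699.PD d, Pool.Agent.Y699.qr π a = 1 := by
  constructor
  · intro h π hπ
    rw [Pool.Agent.Y699.mem_PD hd0] at hπ
    have h1 := hnd π hπ.1.pr hπ.2
    have h2 := h π hπ.1.pr hπ.2
    unfold Pool.Agent.Y699.qr
    rw [if_neg h1, if_pos h2]
  · intro h π hπ hπd
    have hodd : π.norm % 2 = 1 := Pool.Agent.Y699.odd_of_dvd hπd ho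
    obtain ⟨ρ, hρ, hass⟩ := Pool.Agent.Y699.exists_PP hπ hodd
    have hρd : ρ ∣ d := hass.dvd.trans hπd
    have h1 := h ρ ((Pool.Agent.Y699.mem_PD hd0).2 ⟨hρ, hρd⟩)
    unfold Pool.Agent.Y699.qr at h1
    rw [if_neg (hnd ρ hρ.pr hρd)] at h1
    by_contra hc
    rw [if_neg (fun ⟨b, hb⟩ => hc ⟨b, hass.symm.dvd.trans hb⟩)] at h1
    exact absurd h1 (by norm_num)

theorem factor_data {D d d' : GaussianInt} (hD : Pool.Agent.Y699.PS D) (he : D = d * d') :
    d ≠ 0 ∧ d.norm % 2 = 1 ∧ ∀ π : GaussianInt, Prime π → π ∣ d → ¬ π ∣ d' := by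
  have hd0 : d ≠ 0 := by
    rintro rfl
    exact hD.ne (by rw [he, zero_mul])
  have ho : D.norm % 2 = 1 := Pool.Agent.H304R2.EC.A1.prim_norm_odd hD.prm
  refine ⟨hd0, Pool.Agent.Y699.odd_of_dvd ⟨d', he⟩ ho, ?_⟩
  intro π hπ h1 h2
  exact hπ.not_isUnit (hD.sqf π (by rw [he]; exact mul_dvd_mul h1 h2))

theorem twistor_iff (c : GaussianInt) : IsTwistor c ↔ Pool.Agent.H691.QM.Cx c := Iff.rfl

theorem nf_iff (x c D : GaussianInt) : NormalForm x c D ↔ Pool.Agent.H691.QM.Rp x c D :=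
  ⟨fun h => ⟨h.1, (sp_iff D).1 ⟨h.2.1, h.2.2.1⟩, h.2.2.2⟩,
    fun h => ⟨h.cx, ((sp_iff D).2 h.ps).1, ((sp_iff D).2 h.ps).2, h.sq⟩⟩

theorem not_dvd_twistor {c π : GaussianInt} (hc : IsTwistor c) (hπ : Prime π) (ho : π.norm % 2 = 1) :
    ¬ π ∣ c := by
  obtain ⟨ρ, hρ, hass⟩ := Pool.Agent.Y699.exists_PP hπ ho
  intro h
  exact Pool.Agent.H691.QM.cx_np ((twistor_iff c).1 hc) hρ (hass.dvd.trans h)

theorem crit_iff {c D : GaussianInt} (hc : IsTwistor c) (h1 : c ≠ 1) (hD : Pool.Agent.Y699.PS D) :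
    Criterion c D ↔ Run7.h26.QI.GoodC c D := by
  have main : ∀ d d' : GaussianInt, D = d * d' →
      ((SquareMod d (c * d') ↔ ∀ π ∈ Pool.Agent.Y699.PD d, Pool.Agent.Y699.qr π (c * d') = 1) ∧
      (SquareMod d' d ↔ ∀ π ∈ Pool.Agent.Y699.PD d', Pool.Agent.Y699.qr π d = 1)) := by
    intro d d' he
    obtain ⟨a1, a2, a3⟩ := factor_data hD he
    obtain ⟨b1, b2, b3⟩ := factor_data hD (by rw [he, mul_comm] : D = d' * d)
    refine ⟨square_iff a1 a2 ?_, square_iff b1 b2 b3⟩
    intro π hπ h1 h2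
    rcases hπ.dvd_or_dvd h2 with h3 | h3
    · exact not_dvd_twistor hc hπ (Pool.Agent.Y699.odd_of_dvd h1 a2) h3
    · exact a3 π hπ h1 h3
  constructor
  · intro h2
    refine ⟨hD, fun d d' hd hd' he k1 k2 => ?_⟩
    obtain ⟨m1, m2⟩ := main d d' he
    exact h2 d d' ((primary_iff d).2 hd) ((primary_iff d').2 hd') he (m1.2 k1) (m2.2 k2)
  · intro h d d' hd hd' he k1 k2
    obtain ⟨m1, m2⟩ := main d d' he
    exact h.ker d d' ((primary_iff d).1 hd) ((primary_iff d').1 hd') he (m1.1 k1) (m2.1 k2)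

theorem gx_iff {c D : GaussianInt} (hc : IsTwistor c) (h1 : c ≠ 1) (hD : Pool.Agent.Y699.PS D) :
    Pool.Agent.H691.QM.Gx c D ↔ Run7.h26.QI.GoodC c D := by
  rw [Pool.Agent.H691.QM.gx_crit ((twistor_iff c).1 hc) hD]
  exact ⟨fun h => h.2 h1, fun h => ⟨fun h2 => absurd h2 h1, fun _ => h⟩⟩

theorem class_iff {m : ℕ} {a : Fin m → GaussianInt} (g : GaussianInt) :
    InClass a g ↔ Squarefree g ∧ Pool.Agent.H691.QM.FrA a g :=
  and_congr_right fun _ => forall_congr' fun J => forall_congr' fun D => by rw [nf_iff]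

theorem twist_q4 {K : Type} [Field K] [NumberField K] (e : GaussianInt ≃+* 𝓞 K) (g : GaussianInt) :
    twist e g = Pool.Agent.Y715.Z.q4 (-(Pool.Agent.Y715.Z.em0 e g) ^ 2) := by
  unfold twist Pool.Agent.Y715.Z.q4
  rw [Pool.Agent.Y715.Z.em0_apply]

theorem tamagawa {c D : GaussianInt} (hc : Run7.h26.QI.cc3 c) (hD : Pool.Agent.Y699.PS D) {K : Type}
    [Field K] [NumberField K] (e : GaussianInt ≃+* 𝓞 K) :
    IsTamagawa (twist e (c * D)) (Run7.h26.QJ.cT e c D) := by
  have hne : c * D ≠ 0 := mul_ne_zero (Run7.h26.QI.cc3_ne hc) hD.ne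
  refine ⟨⟨Pool.Agent.Y699.crv (e (c * D)), ?_, fun v => Run7.h26.QI.crv_min' e hne
    (Run7.h26.QI.noup_cD hc hD) (Run7.h26.QI.sq_cD hc hD) v⟩, fun v => ?_, (Run7.h26.QJ.t_TPR K e c D hc hD).1⟩
  · unfold twist Pool.Agent.Y699.crv
    simp [WeierstrassCurve.map]
  · have hbc : (twist e (c * D)).baseChange (v.adicCompletion K) = Pool.Agent.Y715.Z.q4
        (algebraMap K (v.adicCompletion K) (-(Pool.Agent.Y715.Z.em0 e (c * D)) ^ 2)) := by
      rw [twist_q4]
      exact Pool.Agent.Y715.Z.q4_map _ _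
    rw [hbc]
    exact (Run7.h26.QJ.t_TAM Run7.h795.QJ.t_IX4 Run7.h763.QJ.t_IXE Run7.h795.QJ.t_IXI) K e c D hc hD v

theorem period_data {K : Type} [Field K] [NumberField K] (e : GaussianInt ≃+* 𝓞 K) (g : GaussianInt)
    (σ : K →+* ℂ) : σ (twist e g).c₄ / 12 = -4 * σ (-(Pool.Agent.Y715.Z.em0 e g) ^ 2) ∧
      σ (twist e g).c₆ / 216 = 0 ∧
      ‖σ (-(Pool.Agent.Y715.Z.em0 e g) ^ 2)‖ = ‖Pool.Agent.H304R3.HK.tc g‖ ^ 2 := by
  refine ⟨?_, ?_, ?_⟩
  · have h5 : (twist e g).c₄ = -48 * (-(Pool.Agent.Y715.Z.em0 e g) ^ 2) := by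
      rw [twist_q4]
      exact Pool.Agent.Y715.Z.q4_c₄ _
    rw [h5, map_mul, map_neg, map_ofNat]
    ring
  · have h7 : (twist e g).c₆ = 0 := by
      simp only [twist, WeierstrassCurve.c₆, WeierstrassCurve.b₂, WeierstrassCurve.b₄,
        WeierstrassCurve.b₆]
      ring
    rw [h7, map_zero, zero_div]
  · rw [map_neg, norm_neg, map_pow, norm_pow, Pool.Agent.Y715.Z.norm_emb e σ g]

theorem lfun {c D : GaussianInt} (hc : Run7.h26.QI.cc3 c) (hD : Pool.Agent.Y699.PS D) {K : Type}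
    [Field K] [NumberField K] (e : GaussianInt ≃+* 𝓞 K) :
    ∃ L : ℂ → ℂ, IsLFunction (twist e (c * D)) L ∧
      ∀ σ : K →+* ℂ, (∃ Λ : PeriodPair, IsPeriodLattice (twist e (c * D)) σ Λ) ∧
        ∀ Λ : PeriodPair, IsPeriodLattice (twist e (c * D)) σ Λ →
          ∀ (Γ : Type) [LinearOrderedCommGroupWithZero Γ] (w : Valuation ℂ Γ), w 2 < 1 →
            w (quotient K L 4 Λ (Run7.h26.QJ.cT e c D)) ≤ 1 ∧
            (w (quotient K L 4 Λ (Run7.h26.QJ.cT e c D)) = 1 ↔ Run7.h26.QI.GoodC c D) := by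
  have hne : c * D ≠ 0 := mul_ne_zero (Run7.h26.QI.cc3_ne hc) hD.ne
  obtain ⟨L, h1, h2, h3⟩ := Run7.h26.QJ.val_all hc hD e
  refine ⟨L, ⟨h1, ⟨fun _ => Pool.Agent.Y699.crv (e (c * D)), fun v => Run7.h26.QI.crv_min' e hne
    (Run7.h26.QI.noup_cD hc hD) (Run7.h26.QI.sq_cD hc hD) v⟩, fun W hW s hs => h2 W hW s hs⟩, ?_⟩
  intro σ
  obtain ⟨p1, p2, p3⟩ := period_data e (c * D) σ
  have hδ0 : σ (-(Pool.Agent.Y715.Z.em0 e (c * D)) ^ 2) ≠ 0 := by
    rw [Ne, map_eq_zero, neg_eq_zero]
    exact pow_ne_zero 2 (Pool.Agent.Y715.Z.em0_ne e hne)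
  refine ⟨?_, ?_⟩
  · obtain ⟨Λ, k1, k2⟩ := Pool.Agent.Y715.Z.per_ex hδ0
    exact ⟨Λ, by rw [p1]; exact k1, by rw [p2]; exact k2⟩
  · intro Λ hΛ Γ _ w hw
    have k := h3 _ Λ p3 (hΛ.1.trans p1) (hΛ.2.trans p2) Γ w hw
    have hq : quotient K L 4 Λ (Run7.h26.QJ.cT e c D) =
        L 1 * 2 * 4 ^ 2 / (((2 * |((starRingEnd ℂ) Λ.ω₁ * Λ.ω₂).im| : ℝ) : ℂ) *
            (4 ^ (Pool.Agent.Y699.PD D).card * ((if c = H385.im1 then 2 else 4 : ℕ) : ℂ))) := by
      unfold quotient period
      rw [Pool.Agent.Y715.Z.sqrt_discr e, (Run7.h26.QJ.t_TPR K e c D hc hD).2]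
      push_cast
      rfl
    rw [hq]
    exact k

theorem value_cD {c D : GaussianInt} (hc : Run7.h26.QI.cc3 c) (hD : Pool.Agent.Y699.PS D) {K : Type}
    [Field K] [NumberField K] (e : GaussianInt ≃+* 𝓞 K) :
    ValuePart (twist e (c * D)) 4 (Run7.h26.QI.GoodC c D) := by
  obtain ⟨L, h1, h2⟩ := lfun hc hD e
  exact ⟨L, Run7.h26.QJ.cT e c D, h1, tamagawa hc hD e, h2⟩

theorem proved_cD {c D : GaussianInt} (hc : Run7.h26.QI.cc3 c) (h : Run7.h26.QI.GoodC c D)
    {K : Type} [Field K] [NumberField K] (e : GaussianInt ≃+* 𝓞 K) :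
    Nat.card (twist e (c * D)).toAffine.Point = 4 ∧ TwoPart (twist e (c * D)) := by
  have hne : c * D ≠ 0 := mul_ne_zero (Run7.h26.QI.cc3_ne hc) h.ps.ne
  have hcard : Nat.card (twist e (c * D)).toAffine.Point = 4 := by
    have h0 : algebraMap (𝓞 K) K (e (c * D)) ≠ 0 := by
      rw [Ne, map_eq_zero_iff _ (IsFractionRing.injective (𝓞 K) K), map_eq_zero_iff _ e.injective]
      exact hne
    exact Pool.Agent.Y699.card_pts h0 two_ne_zero (fun x y k => Run7.h26.QI.crit_pts' hc h e k)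
  have hT : Pool.Agent.Y682.IsT (twist e (c * D)) 0 (-(Pool.Agent.Y715.Z.em0 e (c * D)) ^ 2) := by
    have h0 := Pool.Agent.Y715.Z.em0_ne (K := K) e hne
    exact { h1 := rfl, h2 := rfl, h3 := rfl, h4 := rfl, h6 := rfl
            hB := neg_ne_zero.2 (pow_ne_zero 2 h0)
            hD := by
              rw [zero_pow two_ne_zero, zero_sub, neg_ne_zero]
              exact mul_ne_zero (by norm_num) (neg_ne_zero.2 (pow_ne_zero 2 h0)) }
  obtain ⟨L, h1, h2⟩ := lfun hc h.ps e
  refine ⟨hcard, Nat.finite_of_card_ne_zero (by rw [hcard]; norm_num),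
    fun n x hx => Pool.Agent.Run7.h843.QJ.t_SHA' K e c D hc h _ hT n x hx, L, Run7.h26.QJ.cT e c D, h1, ?_,
    tamagawa hc h.ps e, fun σ => ⟨(h2 σ).1, fun Λ hΛ Γ _ w hw => ?_⟩⟩
  · obtain ⟨B, hB⟩ := Pool.Agent.Y699.exists_val
    obtain ⟨σ⟩ : Nonempty (K →+* ℂ) := inferInstance
    obtain ⟨Λ, hΛ⟩ := (h2 σ).1
    have h3 := ((h2 σ).2 Λ hΛ _ B.valuation hB).2.2 h
    intro h4
    unfold quotient at h3
    rw [h4, zero_mul, zero_mul, zero_div, map_zero] at h3
    exact zero_ne_one h3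
  · rw [hcard]
    exact ((h2 σ).2 Λ hΛ Γ w hw).2.2 h

/-- the curves with the same square class -/
theorem iso {x y s : GaussianInt} (hx : x ≠ 0) (hy : y ≠ 0) (h : x * y = s * s) {K : Type} [Field K]
    [NumberField K] (e : GaussianInt ≃+* 𝓞 K) :
    ∃ C : WeierstrassCurve.VariableChange K, C • twist e x = twist e y := by
  have h0 : ∀ z : GaussianInt, z ≠ 0 → algebraMap (𝓞 K) K (e z) ≠ 0 := fun z hz => by
    rw [Ne, map_eq_zero_iff _ (IsFractionRing.injective (𝓞 K) K), map_eq_zero_iff _ e.injective]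
    exact hz
  have hs : s ≠ 0 := by
    rintro rfl
    exact mul_ne_zero hx hy (by rw [h, mul_zero])
  refine ⟨⟨Units.mk0 (algebraMap (𝓞 K) K (e s) / algebraMap (𝓞 K) K (e y))
    (div_ne_zero (h0 s hs) (h0 y hy)), 0, 0, 0⟩, ?_⟩
  refine Pool.Agent.H691.MI.vc_cv (L := K) ?_
  rw [Units.val_mk0]
  have h1 := congrArg (fun z : GaussianInt => algebraMap (𝓞 K) K (e z)) h
  simp only [map_mul] at h1
  have h2 := h0 y hy
  field_simp
  linear_combination h1

theorem twist_Eg {K : Type} [Field K] [NumberField K] (e : GaussianInt ≃+* 𝓞 K) (g : GaussianInt) :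
    twist e g = Pool.Agent.Run7.h843.QJ.Eg (K := K) e g := by
  rfl

/-- finite and no element of order two if and only if the criterion holds -/
theorem zero_iff {c D : GaussianInt} (hc : Run7.h26.QI.cc3 c) (hD : Pool.Agent.Y699.PS D)
    {K : Type} [Field K] [NumberField K] (e : GaussianInt ≃+* 𝓞 K) :
    RankShaZero (twist e (c * D)) ↔ Run7.h26.QI.GoodC c D := by
  constructor
  · rintro ⟨h1, h2⟩
    by_contra h
    rw [twist_Eg] at h1 h2
    exact Pool.Agent.Run7.h843.QJ.conv_c e hc hD h h1 h2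
  · intro h
    obtain ⟨-, h1, h2, -⟩ := proved_cD hc h e
    refine ⟨h1, fun x hx => h2 1 x ?_⟩
    rw [pow_one]
    exact hx

theorem ga_iff {m : ℕ} {a : Fin m → GaussianInt} {g : GaussianInt} (ha : ∀ i, a i ≠ 0)
    (hg : InClass a g) (i : Fin m) : Pool.Agent.H691.QM.GA a i g ↔ Holds (g * a i) := by
  have hne : g * a i ≠ 0 := mul_ne_zero hg.1.ne_zero (ha i)
  obtain ⟨c, D, h⟩ := Pool.Agent.H691.QM.exists_rp hne
  have h1 : c ≠ 1 := by
    rintro rfl
    exact hg.2 i D ((nf_iff _ _ _).2 h)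
  have hT : IsTwistor c := (twistor_iff c).2 h.cx
  have h3 : Run7.h26.QI.cc3 c := hT.resolve_left h1
  constructor
  · intro hG K _ _ e c' D' h'
    obtain ⟨e1, e2⟩ := Pool.Agent.H691.QM.rp_uniq hne ((nf_iff _ _ _).1 h') h
    rw [e1, e2]
    exact proved_cD h3 ((gx_iff hT h1 h.ps).1 (hG c D h)) e
  · intro hH c' D' h'
    obtain ⟨e1, e2⟩ := Pool.Agent.H691.QM.rp_uniq hne h' h
    rw [e1, e2, gx_iff hT h1 h.ps]
    obtain ⟨K, iK, iN, ⟨e⟩⟩ := Pool.Agent.Run7.h843.QJ.exists_K
    obtain ⟨-, k1, k2, -⟩ := hH K e c D ((nf_iff _ _ _).2 h)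
    refine (zero_iff h3 h.ps e).1 ⟨k1, fun x hx => k2 1 x ?_⟩
    rw [pow_one]
    exact hx

/-- **Main theorem.** `K = ℚ(i)`, `E_g : y² = x³ - g² x`, `κ = ∏_{j ≥ 0} (1 - 2^{-(2j+1)})`.
(1) `0.4194 < κ < 0.4195`, and every nonzero Gaussian integer has exactly one normal form. For all
`a_1, …, a_m` that are nonzero and pairwise different modulo squares:
(2) there is `δ` such that, ordered by norm, the proportion of the class among the squarefree `g` tends to `δ`; for every
`V ⊆ {1, …, m}` the proportion of the `g` of the class such that `{i | Holds (g a_i)} = V` among the squarefree `g` tends to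
`κ^#V (1 - κ)^(m - #V) δ`, among the elements of the class to `κ^#V (1 - κ)^(m - #V)` if `δ > 0`; `δ ≥ 1/6` if the class is not empty,
`δ ≥ 1 - m/3`, `δ = 2/3` if `m > 0` and the `a_i` are squarefree and `≡ 1 mod 2 + 2i`.
(3) For ALL `g` of the class, all `i`, and the normal form `c D` of `g a_i`: the curves are isomorphic,
`L(E_{cD}/K, s)` is entire and the quotient `L(E_{cD}/K, 1) √|disc K| 4² / (Ω ∏ c_v)` is integral at all valuations above `2`;
it is a unit at these if and only if `E_{cD}(K)` is finite and `Ш(E_{cD}/K)` has no element of order two, if and only if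
the criterion for `c D` holds; and in this case `E_{cD}(K)` has exactly four points, `Ш(E_{cD}/K)[2^∞] = 0`, `L(E_{cD}/K, 1) ≠ 0`, and the
formula of the strong conjecture holds up to units at the valuations above `2`. -/
theorem result :
    (0.4194 < κ ∧ κ < 0.4195) ∧
    (∀ x : GaussianInt, x ≠ 0 → ∃! p : GaussianInt × GaussianInt, NormalForm x p.1 p.2) ∧
    ∀ (m : ℕ) (a : Fin m → GaussianInt), Distinct a →
      (∃ δ : ℝ,
        Filter.Tendsto (fun X : ℕ => (num (InClass a) X : ℝ) / num Squarefree X) Filter.atTop (nhds δ) ∧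
        (∀ V : Finset (Fin m), Filter.Tendsto
          (fun X : ℕ => (num (fun g => InClass a g ∧ ∀ i, Holds (g * a i) ↔ i ∈ V) X : ℝ) /
            num Squarefree X) Filter.atTop (nhds (κ ^ V.card * (1 - κ) ^ (m - V.card) * δ))) ∧
        (0 < δ → ∀ V : Finset (Fin m), Filter.Tendsto
          (fun X : ℕ => (num (fun g => InClass a g ∧ ∀ i, Holds (g * a i) ↔ i ∈ V) X : ℝ) /
            num (InClass a) X) Filter.atTop (nhds (κ ^ V.card * (1 - κ) ^ (m - V.card)))) ∧
        ((∃ g : GaussianInt, InClass a g) → 1 / 6 ≤ δ) ∧ 1 - (m : ℝ) / 3 ≤ δ ∧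
        (0 < m → (∀ i, Primary (a i) ∧ Squarefree (a i)) → δ = 2 / 3)) ∧
      ∀ g : GaussianInt, InClass a g → ∀ (K : Type) [Field K] [NumberField K]
        (e : GaussianInt ≃+* 𝓞 K) (i : Fin m) (c D : GaussianInt), NormalForm (g * a i) c D →
          (∃ C : WeierstrassCurve.VariableChange K, C • twist e (g * a i) = twist e (c * D)) ∧
          ValuePart (twist e (c * D)) 4 (RankShaZero (twist e (c * D))) ∧
          (RankShaZero (twist e (c * D)) ↔ Criterion c D) ∧
          (RankShaZero (twist e (c * D)) →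
            Nat.card (twist e (c * D)).toAffine.Point = 4 ∧ TwoPart (twist e (c * D))) := by
  have hc : κ = Pool.Agent.Y703.CQ.c2 := rfl
  have hc2 := Pool.Agent.Y948.CQ.t_C2
  have hk1 : 0.4194 < κ := hc2.2.2.2.1
  refine ⟨⟨hk1, hc2.2.2.2.2⟩, fun x hx => ?_, fun m a ha => ⟨?_, ?_⟩⟩
  · obtain ⟨c, D, h⟩ := Pool.Agent.H691.QM.exists_rp hx
    refine ⟨(c, D), (nf_iff x c D).2 h, ?_⟩
    rintro ⟨c', D'⟩ h'
    obtain ⟨e1, e2⟩ := Pool.Agent.H691.QM.rp_uniq hx ((nf_iff x c' D').1 h') h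
    rw [e1, e2]
  · have ha' : Pool.Agent.H691.QM.Dst a := ha
    -- the class
    have hsg : ∀ X : ℕ, num (InClass a) X = Run7.h26.QI.nQ (fun g => Squarefree g ∧
        (Pool.Agent.H691.QM.FrA a g ∧ (∀ i ∈ (∅ : Finset (Fin m)), Pool.Agent.H691.QM.GA a i g))) X :=
      fun X => by
        rw [num_congr (Q := fun g => Squarefree g ∧ (Pool.Agent.H691.QM.FrA a g ∧
          (∀ i ∈ (∅ : Finset (Fin m)), Pool.Agent.H691.QM.GA a i g))) (fun g => ?_), num_eq]
        rw [class_iff g]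
        simp
    have l1 : Filter.Tendsto (fun X : ℕ => (num (InClass a) X : ℝ) / num Squarefree X)
        Filter.atTop (nhds (Pool.Agent.H691.QM.shA a)) := by
      have h := Pool.Agent.H691.QM.share_A ha' ∅
      rw [Finset.card_empty, pow_zero, one_mul] at h
      refine h.congr fun X => ?_
      rw [hsg, num_eq]
    -- the patterns
    have hsj : ∀ (V : Finset (Fin m)) (X : ℕ),
        num (fun g => InClass a g ∧ ∀ i, Holds (g * a i) ↔ i ∈ V) X =
        Run7.h26.QI.nQ (fun g => Squarefree g ∧ (Pool.Agent.H691.QM.FrA a g ∧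
          (∀ i ∈ V, Pool.Agent.H691.QM.GA a i g) ∧
            ∀ i ∈ Finset.univ \ V, ¬ Pool.Agent.H691.QM.GA a i g)) X := fun V X => by
      rw [num_congr (Q := fun g => Squarefree g ∧ (Pool.Agent.H691.QM.FrA a g ∧
          (∀ i ∈ V, Pool.Agent.H691.QM.GA a i g) ∧
            ∀ i ∈ Finset.univ \ V, ¬ Pool.Agent.H691.QM.GA a i g)) (fun g => ?_), num_eq]
      constructor
      · rintro ⟨h1, h2⟩
        have h3 := (class_iff g).1 h1
        refine ⟨h3.1, h3.2, fun i hi => (ga_iff ha.1 h1 i).2 ((h2 i).2 hi), fun i hi h4 => ?_⟩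
        exact (Finset.mem_sdiff.1 hi).2 ((h2 i).1 ((ga_iff ha.1 h1 i).1 h4))
      · rintro ⟨h1, h2, h3, h4⟩
        have h5 : InClass a g := (class_iff g).2 ⟨h1, h2⟩
        refine ⟨h5, fun i => ⟨fun h6 => ?_, fun h6 => (ga_iff ha.1 h5 i).1 (h3 i h6)⟩⟩
        by_contra h7
        exact h4 i (Finset.mem_sdiff.2 ⟨Finset.mem_univ i, h7⟩) ((ga_iff ha.1 h5 i).2 h6)
    have l2 : ∀ V : Finset (Fin m), Filter.Tendsto
        (fun X : ℕ => (num (fun g => InClass a g ∧ ∀ i, Holds (g * a i) ↔ i ∈ V) X : ℝ) /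
          num Squarefree X) Filter.atTop
        (nhds (κ ^ V.card * (1 - κ) ^ (m - V.card) * Pool.Agent.H691.QM.shA a)) := by
      intro V
      have h := Pool.Agent.H691.QM.share_AB ha' (Finset.univ \ V) V Finset.disjoint_sdiff
      rw [Finset.card_sdiff_of_subset (Finset.subset_univ V), Finset.card_univ, Fintype.card_fin,
        ← hc] at h
      refine h.congr fun X => ?_
      rw [hsj, num_eq]
    refine ⟨Pool.Agent.H691.QM.shA a, l1, l2, fun hs V => ?_, ?_, Pool.Agent.H691.QM.shA_low,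
      fun hm h => Pool.Agent.H691.QM.shA_prim hm fun i => (sp_iff _).1 (h i)⟩
    · have h := (l2 V).div l1 hs.ne'
      rw [mul_div_cancel_right₀ _ hs.ne'] at h
      refine h.congr' ?_
      filter_upwards [Run7.h26.QI.sA_pos] with X hX
      rw [Pi.div_apply]
      have h1 : (num Squarefree X : ℝ) ≠ 0 := by
        rw [num_eq, Run7.h26.QI.count_sqf]
        push_cast
        positivity
      rw [div_div_div_cancel_right₀ h1]
    · rintro ⟨g, hg⟩
      have h1 := (class_iff g).1 hg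
      exact Pool.Agent.H691.QM.shA_nonempty ha.1 h1.1.ne_zero h1.2
  · intro g hg K _ _ e i c D h
    have h2 : c ≠ 1 := by
      rintro rfl
      exact hg.2 i D h
    have h1 : Run7.h26.QI.cc3 c := h.1.resolve_left h2
    have h3 := (nf_iff _ _ _).1 h
    have hne : g * a i ≠ 0 := mul_ne_zero hg.1.ne_zero (ha.1 i)
    have hz := zero_iff h1 h3.ps e
    refine ⟨?_, ?_, ?_, fun h4 => proved_cD h1 (hz.1 h4) e⟩
    · obtain ⟨s, hs⟩ := h3.sq
      exact iso hne (mul_ne_zero h3.cx.ne h3.ps.ne) hs e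
    · have h6 : RankShaZero (twist e (c * D)) = Run7.h26.QI.GoodC c D := propext hz
      rw [h6]
      exact value_cD h1 h3.ps e
    · rw [hz, crit_iff h.1 h2 h3.ps]

end Pool.Agent.Results.MP_9ab903_nt.TwoPartIndependence
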